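import Pool.Agent.H30.Gon
import Pool.Agent.H30.GonProdDefs

set_option autoImplicit false

namespace Pool.Agent.Results.MP_30555c_co.Example
open Pool.Agent.H30.Gon

/-- the tree with two vertices and one edge -/
def T : Fin 2 → Fin 2 → ℕ := fun u v => if u = v then 0 else 1

/-- edges 0-1, 0-2, 0-3, a double edge 2-4 and a triple edge 2-5 -/
def H : Fin 6 → Fin 6 → ℕ := fun u v => ([[0, 1, 1, 1, 0, 0], [1, 0, 0, 0, 0, 0], [1, 0, 0, 0, 2, 3], [1, 0, 0, 0, 0, 0], [0, 0, 2, 0, 0, 0], [0, 0, 3, 0, 0, 0]].getD u.val []).getD v.val 0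

theorem Hs : ∀ u v, H u v = H v u := by decide +kernel

theorem isT : IsGraph T := by
  refine ⟨inferInstance, by decide, by decide, conn_of_root (by decide) 0 fun v => ?_⟩
  fin_cases v
  exacts [.refl, .single (by decide)]

theorem isH : IsGraph H := by
  refine ⟨inferInstance, Hs, by decide +kernel, conn_of_root Hs 0 fun v => ?_⟩
  have h2 : Relation.ReflTransGen (fun a b => 0 < H a b) 0 2 := .single (by decide)
  fin_cases v
  exacts [.refl, .single (by decide), h2, .single (by decide), h2.tail (by decide),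
    h2.tail (by decide)]

theorem gH : gon H 1 = 3 := by
  refine gon_eq Hs (fun v => [0, 0, 3, 0, 0, 0].getD v.val 0) 1 2 (by decide +kernel) ?_ ?_
  · apply P_of_list _ 1 ([[-1, -1, 0, -1, 0, 0], [-1, -2, 0, -1, 0, 0], [-1, -1, 0, -2, 0, 0], [0, 0, 0, 0, -1, 0], [0, 0, 0, 0, 0, -1]].map fun l v => l.getD v.val 0)
    intro l hl
    obtain ⟨u, rfl⟩ := List.length_eq_one_iff.1 hl
    revert u
    decide +kernel
  · apply no_rank_one Hs (fun v => [0, 0, 0, 0, 3, 2].getD v.val 0) 6 (by norm_num)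
      (by decide +kernel) 1 (fun x => x ∈ [0, 2, 3]) _ (by decide +kernel)
    intro l hl
    obtain ⟨u, rfl⟩ := List.length_eq_one_iff.1 hl
    revert u
    decide +kernel

theorem gP : gon (boxProd T H) 1 ≤ 5 := by
  refine gon_le (by decide +kernel) (fun v => [2, 0, 0, 0, 0, 0, 1, 0, 0, 0, 1, 1].getD (6 * v.1.val + v.2.val) 0) 1 5
    (by decide +kernel) ?_
  apply P_of_list _ 1 ([[0, 0, 0, 0, 0, 0, 0, 0, 0, 0, 0, 0], [0, -1, 0, 0, 0, 0, 0, -1, 0, 0, 0, 0], [0, 0, -1, 0, -1, -1, 0, 0, -1, 0, -1, -1], [0, 0, 0, -1, 0, 0, 0, 0, 0, -1, 0, 0], [0, 0, -2, 0, -2, -2, 0, 0, -1, 0, -1, -1]].map fun l v => l.getD (6 * v.1.val + v.2.val) 0)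
  intro l hl
  obtain ⟨u, rfl⟩ := List.length_eq_one_iff.1 hl
  revert u
  decide +kernel

theorem result : ∃ (a b : ℕ) (T : Fin a → Fin a → ℕ) (H : Fin b → Fin b → ℕ),
    IsGraph T ∧ genus T = 0 ∧ IsGraph H ∧ gon (boxProd T H) 1 < min b (a * gon H 1) := by
  refine ⟨2, 6, T, H, isT, by decide +kernel, isH, ?_⟩
  have := gP
  rw [gH]
  omega

end Pool.Agent.Results.MP_30555c_co.Example
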